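import Pool.Agent.H37.CNZ.Stmts

/-!
# Board `cnz`, row ZCV (after the row XLO of helper54)
-/

set_option autoImplicit false

namespace Pool.CND

open Finset Matrix

section

variable {k L : Type} [Field k] [Field L] [Algebra k L] (P : Place k L)

private theorem zcv_bound {x : L} (hx : x ≠ 0) (hlt : P.ord x < 0) (r : Polynomial k) (N : ℕ)
    (hN : r.natDegree ≤ N) : P.Ge (Polynomial.aeval x r) (N * P.ord x) := by
  rw [Polynomial.aeval_eq_sum_range]
  refine P.ge_sum _ _ _ fun i hi => ?_
  have hi' : i ≤ N := by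
    have := Finset.mem_range.1 hi
    omega
  rw [Algebra.smul_def]
  have h1 := P.ge_mul (P.ge_const (r.coeff i)) (Or.inr le_rfl : P.Ge (x ^ i) (P.ord (x ^ i)))
  rw [zero_add, P.ord_pow hx] at h1
  refine P.ge_mono h1 ?_
  have : (i : ℤ) ≤ N := by exact_mod_cast hi'
  nlinarith

/-- order of a polynomial at an element of negative order -/
private theorem zcv_aeval {x : L} (hx : x ≠ 0) (hlt : P.ord x < 0) (g : Polynomial k)
    (hg : 1 ≤ g.natDegree) :
    Polynomial.aeval x g ≠ 0 ∧ P.ord (Polynomial.aeval x g) = g.natDegree * P.ord x := by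
  have h1 := Polynomial.eraseLead_add_monomial_natDegree_leadingCoeff g
  have hl : g.leadingCoeff ≠ 0 := by
    intro h
    rw [Polynomial.leadingCoeff_eq_zero] at h
    rw [h, Polynomial.natDegree_zero] at hg
    omega
  have hl' : algebraMap k L g.leadingCoeff ≠ 0 := by
    rwa [Ne, map_eq_zero]
  have h2 : Polynomial.aeval x g =
      algebraMap k L g.leadingCoeff * x ^ g.natDegree + Polynomial.aeval x g.eraseLead := by
    conv_lhs => rw [← h1]
    rw [map_add, Polynomial.aeval_monomial, add_comm]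
  have h3 : P.ord (algebraMap k L g.leadingCoeff * x ^ g.natDegree) = g.natDegree * P.ord x := by
    rw [P.ord_mul _ _ hl' (pow_ne_zero _ hx), P.ord_const _ hl, P.ord_pow hx, zero_add]
  have h4 := zcv_bound P hx hlt g.eraseLead (g.natDegree - 1) (Polynomial.eraseLead_natDegree_le g)
  have h5 : P.Ge (Polynomial.aeval x g.eraseLead)
      (P.ord (algebraMap k L g.leadingCoeff * x ^ g.natDegree) + 1) := by
    refine P.ge_mono h4 ?_
    rw [h3]
    have : ((g.natDegree - 1 : ℕ) : ℤ) = g.natDegree - 1 := by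
      push_cast [hg]
      ring
    rw [this]
    nlinarith
  obtain ⟨h6, h7⟩ := P.ord_add_of_lt (mul_ne_zero hl' (pow_ne_zero _ hx)) h5
  rw [h2]
  exact ⟨h6, by rw [h7, h3]⟩

/-- order of a solution of `y ^ p - y = r` -/
private theorem zcv_as {y r : L} {p : ℕ} (hp : 2 ≤ p) (hr : r ≠ 0) (hlt : P.ord r < 0)
    (h : y ^ p - y = r) : y ≠ 0 ∧ (p : ℤ) * P.ord y = P.ord r := by
  have hp' : (2 : ℤ) ≤ p := by exact_mod_cast hp
  have hy : y ≠ 0 := by
    intro hy
    rw [hy, zero_pow (by omega), sub_zero] at h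
    exact hr h.symm
  refine ⟨hy, ?_⟩
  have hneg : P.ord y < 0 := by
    by_contra hc
    rw [not_lt] at hc
    have h1 : P.Ge (y ^ p) 0 := Or.inr (by rw [P.ord_pow hy]; positivity)
    have h2 : P.Ge (y ^ p - y) 0 := P.ge_sub h1 (Or.inr hc)
    rw [h] at h2
    have := (P.ge_iff hr 0).1 h2
    omega
  have h3 : P.Ge (-y) (P.ord (y ^ p) + 1) := by
    refine P.ge_mono (P.ge_neg (P.ge_ord y)) ?_
    rw [P.ord_pow hy]
    nlinarith
  obtain ⟨-, h4⟩ := P.ord_add_of_lt (pow_ne_zero p hy) h3
  rw [← sub_eq_add_neg, h, P.ord_pow hy] at h4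
  exact h4.symm

end

/-- a linear form with a given kernel -/
private theorem zcv_form {p n : ℕ} (hp : p.Prime) {G : Type} [Group G] [Finite G] (A J : Subgroup G)
    (φ : A ≃* Multiplicative (Fin n → ZMod p)) (hJA : J ≤ A)
    (hcard : Nat.card A = p * Nat.card J) :
    ∃ ℓ : Fin n → ZMod p, ℓ ≠ 0 ∧
      ∀ a : A, ℓ ⬝ᵥ Multiplicative.toAdd (φ a) = 0 ↔ (a : G) ∈ J := by
  have hfact : Fact p.Prime := ⟨hp⟩
  let J' : AddSubgroup (Fin n → ZMod p) :=
    { carrier := {v | ((φ.symm (Multiplicative.ofAdd v) : A) : G) ∈ J}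
      add_mem' := by
        intro a b ha hb
        simp only [Set.mem_ofPred_eq] at ha hb ⊢
        rw [ofAdd_add, map_mul, Subgroup.coe_mul]
        exact J.mul_mem ha hb
      zero_mem' := by
        simp only [Set.mem_ofPred_eq]
        rw [ofAdd_zero, map_one, Subgroup.coe_one]
        exact J.one_mem
      neg_mem' := by
        intro a ha
        simp only [Set.mem_ofPred_eq] at ha ⊢
        rw [ofAdd_neg, map_inv, Subgroup.coe_inv]
        exact J.inv_mem ha }
  have hJ' : ∀ a : A, Multiplicative.toAdd (φ a) ∈ J' ↔ (a : G) ∈ J := by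
    intro a
    show ((φ.symm (Multiplicative.ofAdd (Multiplicative.toAdd (φ a))) : A) : G) ∈ J ↔ _
    rw [ofAdd_toAdd, MulEquiv.symm_apply_apply]
  -- the subgroup is proper
  obtain ⟨a0, ha0⟩ : ∃ a : A, (a : G) ∉ J := by
    by_contra hc
    push Not at hc
    have h1 : J = A := le_antisymm hJA fun a ha => hc ⟨a, ha⟩
    rw [h1] at hcard
    have h2 : 0 < Nat.card A := Nat.card_pos
    have h3 := hp.two_le
    nlinarith
  let W : Submodule (ZMod p) (Fin n → ZMod p) := AddSubgroup.toZModSubmodule p J'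
  have hWmem : ∀ v, v ∈ W ↔ v ∈ J' := fun v => Iff.rfl
  have hWtop : W < ⊤ := by
    rw [lt_top_iff_ne_top]
    intro h
    refine ha0 ((hJ' a0).1 ((hWmem _).1 ?_))
    rw [h]
    exact Submodule.mem_top
  obtain ⟨f, hf0, hfW⟩ := Submodule.exists_le_ker_of_lt_top W hWtop
  let ℓ : Fin n → ZMod p := fun i => f (fun j => if i = j then 1 else 0)
  have hfl : ∀ v, f v = ℓ ⬝ᵥ v := by
    intro v
    rw [LinearMap.pi_apply_eq_sum_univ f v, dotProduct]
    refine Finset.sum_congr rfl fun i _ => ?_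
    rw [smul_eq_mul, mul_comm]
  refine ⟨ℓ, ?_, ?_⟩
  · intro h0
    apply hf0
    ext i
    have := hfl (Pi.single i 1)
    rw [h0, zero_dotProduct] at this
    simpa using this
  · intro a
    rw [← hfl]
    constructor
    · intro ha
      -- the kernel, as a subgroup of `A`
      let K : Subgroup A :=
        { carrier := {a | f (Multiplicative.toAdd (φ a)) = 0}
          mul_mem' := by
            intro a b ha hb
            simp only [Set.mem_ofPred_eq] at ha hb ⊢
            rw [map_mul, toAdd_mul, map_add, ha, hb, add_zero]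
          one_mem' := by
            simp only [Set.mem_ofPred_eq]
            rw [map_one, toAdd_one, map_zero]
          inv_mem' := by
            intro a ha
            simp only [Set.mem_ofPred_eq] at ha ⊢
            rw [map_inv, toAdd_inv, map_neg, ha, neg_zero] }
      have hKmem : ∀ a : A, a ∈ K ↔ f (Multiplicative.toAdd (φ a)) = 0 := fun a => Iff.rfl
      have hJK : J.subgroupOf A ≤ K := by
        intro b hb
        rw [Subgroup.mem_subgroupOf] at hb
        rw [hKmem]
        exact hfW ((hWmem _).2 ((hJ' b).2 hb))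
      have hcJ : Nat.card (J.subgroupOf A) = Nat.card J :=
        Nat.card_congr (Subgroup.subgroupOfEquivOfLe hJA).toEquiv
      have hidx : (J.subgroupOf A).index = p := by
        have h1 := (J.subgroupOf A).card_mul_index
        rw [hcJ, hcard, mul_comm p] at h1
        exact Nat.eq_of_mul_eq_mul_left Nat.card_pos h1
      have hK1 : K.index ≠ 1 := by
        intro h1
        rw [Subgroup.index_eq_one] at h1
        apply hf0
        ext v
        have h2 : (φ.symm (Multiplicative.ofAdd (Pi.single v 1)) : A) ∈ K := by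
          rw [h1]; exact Subgroup.mem_top _
        rw [hKmem, MulEquiv.apply_symm_apply, toAdd_ofAdd] at h2
        simpa using h2
      have hrel := Subgroup.relIndex_mul_index hJK
      rw [hidx] at hrel
      have hKp : K.index = p :=
        ((Nat.dvd_prime hp).1 (Dvd.intro_left _ hrel)).resolve_left hK1
      rw [hKp] at hrel
      have hrel1 : (J.subgroupOf A).relIndex K = 1 := by
        have := hp.pos
        exact Nat.eq_of_mul_eq_mul_right this (by rw [hrel, one_mul])
      have hKJ := Subgroup.relIndex_eq_one.1 hrel1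
      have h3 : a ∈ J.subgroupOf A := hKJ ((hKmem a).2 ha)
      rwa [Subgroup.mem_subgroupOf] at h3
    · intro ha
      exact hfW ((hWmem _).2 ((hJ' a).2 ha))

theorem zcv_thm (hASR : S_ASR) (hXGA : S_XGA) (hEXI : S_EXI) (hXUN : S_XUN) (hXDC : S_XDC) :
    S_ZCV := by
  intro p d k G _ _ hck _ _ M n φ S ι C F zv D0 hp hd hea hnorm hpow hcι hcard hD hC hzv hD0 hl
  have hfact : Fact p.Prime := ⟨hp⟩
  obtain ⟨L, fL, aL, x, Y, ρ, htr, hY, hactx, hactY, hfixM, hfixG, hfin, hsep⟩ :=
    hXGA p k G M n φ S ι C F hp hD hC (by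
      intro ℓ hℓ u
      obtain ⟨D, r, hD, hpD, hdeg, -⟩ := hl ℓ hℓ
      exact hASR p k _ r D hp hck hD hpD hdeg u)
  have hcL : CharP L p := charP_of_injective_algebraMap (algebraMap k L).injective p
  obtain ⟨P, hP⟩ := hEXI k L x htr hfin hsep
  have hcov := hXUN p k L G M n φ S ι C F x Y ρ hp hD hC htr hY hactx hactY hfixG
  have hx0 : x ≠ 0 := by
    intro h
    rw [h] at htr
    exact htr isAlgebraic_zero
  -- the element `z`
  set z' : M := φ.symm (Multiplicative.ofAdd zv) with hz'def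
  have hz' : Multiplicative.toAdd (φ z') = zv := by
    rw [hz'def, MulEquiv.apply_symm_apply, toAdd_ofAdd]
  have hz1 : (z' : G) ≠ 1 := by
    intro h
    have h1 : z' = 1 := Subtype.ext h
    rw [h1, map_one, toAdd_one] at hz'
    exact hzv hz'.symm
  -- facts on `fp`
  have hfpmul : ∀ a b : ZMod p, fp k (a * b) = fp k a * fp k b := fun a b =>
    map_mul (ZMod.castHom (dvd_refl p) k) a b
  have hfpsum : ∀ f : Fin n → ZMod p, fp k (∑ i, f i) = ∑ i, fp k (f i) := fun f =>
    map_sum (ZMod.castHom (dvd_refl p) k) f univ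
  have hfp0 : ∀ a : ZMod p, fp k a = 0 ↔ a = 0 := fun a =>
    map_eq_zero (ZMod.castHom (dvd_refl p) k)
  have hfp1 : fp k (1 : ZMod p) = 1 := map_one (ZMod.castHom (dvd_refl p) k)
  have hfppow : ∀ a : ZMod p, fp k a ^ p = fp k a := by
    intro a
    have h1 : fp k a ^ p = fp k (a ^ p) := (map_pow (ZMod.castHom (dvd_refl p) k) a p).symm
    rw [h1, ZMod.pow_card]
  -- the action of `M`
  have hactA : ∀ a : M, ρ a x = x ∧
      ∀ i, ρ a (Y i) = Y i + algebraMap k L (fp k (Multiplicative.toAdd (φ a) i)) := by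
    intro a
    refine ⟨?_, fun i => ?_⟩
    · rw [hactx, (hD.ι_ker a).2 a.2, map_zero, add_zero]
    · rw [hactY, hD.S_one a a.2, hC.C_M a]
      unfold vp
      rw [Polynomial.aeval_C]
      congr 1
      rw [Finset.sum_eq_single i]
      · rw [Matrix.one_apply_eq, hfp1, map_one, one_mul]
      · intro j _ hj
        rw [Matrix.one_apply_ne (Ne.symm hj), (hfp0 0).2 rfl, map_zero, zero_mul]
      · intro h
        exact absurd (Finset.mem_univ i) h
  -- the linear combinations of the `Y i`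
  have hcomb : ∀ (ℓ : Fin n → ZMod p) (r : Polynomial k),
      ((∑ i, algebraMap k L (fp k (ℓ i)) * Y i) - Polynomial.aeval x r) ^ p -
        ((∑ i, algebraMap k L (fp k (ℓ i)) * Y i) - Polynomial.aeval x r) =
      Polynomial.aeval x ((∑ i, Polynomial.C (fp k (ℓ i)) * F i) - (r ^ p - r)) ∧
      ∀ a : M, ρ a ((∑ i, algebraMap k L (fp k (ℓ i)) * Y i) - Polynomial.aeval x r) =
        ((∑ i, algebraMap k L (fp k (ℓ i)) * Y i) - Polynomial.aeval x r) +
          algebraMap k L (fp k (ℓ ⬝ᵥ Multiplicative.toAdd (φ a))) := by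
    intro ℓ r
    constructor
    · have e1 : ((∑ i, algebraMap k L (fp k (ℓ i)) * Y i) - Polynomial.aeval x r) ^ p =
          (∑ i, algebraMap k L (fp k (ℓ i)) * Y i ^ p) - Polynomial.aeval x r ^ p := by
        rw [sub_pow_char, sum_pow_char]
        congr 1
        refine Finset.sum_congr rfl fun i _ => ?_
        rw [mul_pow, ← map_pow, hfppow]
      have e2 : Polynomial.aeval x ((∑ i, Polynomial.C (fp k (ℓ i)) * F i) - (r ^ p - r)) =
          (∑ i, algebraMap k L (fp k (ℓ i)) * (Y i ^ p - Y i)) -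
          (Polynomial.aeval x r ^ p - Polynomial.aeval x r) := by
        rw [map_sub, map_sub, map_pow, map_sum]
        congr 1
        refine Finset.sum_congr rfl fun i _ => ?_
        rw [map_mul, Polynomial.aeval_C, hY i]
      rw [e1, e2]
      have e3 : (∑ i, algebraMap k L (fp k (ℓ i)) * (Y i ^ p - Y i)) =
          (∑ i, algebraMap k L (fp k (ℓ i)) * Y i ^ p) -
            ∑ i, algebraMap k L (fp k (ℓ i)) * Y i := by
        rw [← Finset.sum_sub_distrib]
        refine Finset.sum_congr rfl fun i _ => ?_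
        ring
      rw [e3]
      ring
    · intro a
      obtain ⟨h1, h2⟩ := hactA a
      have e1 : ρ a (Polynomial.aeval x r) = Polynomial.aeval x r := by
        have h3 := Polynomial.aeval_algHom_apply (ρ a : L ≃ₐ[k] L).toAlgHom x r
        have h4 : (ρ a : L ≃ₐ[k] L).toAlgHom x = x := h1
        rw [h4] at h3
        exact h3.symm
      have e2 : algebraMap k L (fp k (ℓ ⬝ᵥ Multiplicative.toAdd (φ a))) =
          ∑ i, algebraMap k L (fp k (ℓ i)) *
            algebraMap k L (fp k (Multiplicative.toAdd (φ a) i)) := by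
        rw [dotProduct, hfpsum, map_sum]
        refine Finset.sum_congr rfl fun i _ => ?_
        rw [hfpmul, map_mul]
      rw [e2, map_sub, map_sum, e1]
      have e3 : (∑ i, ρ a (algebraMap k L (fp k (ℓ i)) * Y i)) =
          (∑ i, algebraMap k L (fp k (ℓ i)) * Y i) + ∑ i, algebraMap k L (fp k (ℓ i)) *
            algebraMap k L (fp k (Multiplicative.toAdd (φ a) i)) := by
        rw [← Finset.sum_add_distrib]
        refine Finset.sum_congr rfl fun i _ => ?_
        rw [map_mul, AlgEquiv.commutes, h2 i]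
        ring
      rw [e3]
      ring
  refine ⟨L, fL, aL, x, ρ, P, hactx, hcov, ?_, ?_, ?_⟩
  · have hdeg : (Apol ι).natDegree = p ^ d := by
      unfold Apol
      rw [Polynomial.natDegree_finsetProd_X_sub_C_eq_card, ← hcι,
        Nat.card_eq_card_finite_toFinset (Set.finite_range ι)]
    have h1 : 1 ≤ (Apol ι).natDegree := by
      rw [hdeg]
      exact Nat.one_le_pow _ _ hp.pos
    have h2 := (zcv_aeval P hx0 hP (Apol ι) h1).2
    rw [h2]
    have h3 : (1 : ℤ) ≤ ((Apol ι).natDegree : ℤ) := by exact_mod_cast h1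
    nlinarith
  · refine hXDC p d k L G P ρ M ι x (z' : G) D0 hp hck hcov.inj hea hd
      hcard hnorm hpow hcι hD.ι_mul hD.ι_ker hx0 hP hactx hfixM hfixG z'.2 hz1 hD0 ?_
    intro J hJA hJc
    obtain ⟨ℓ, hℓ0, hℓ⟩ := zcv_form hp M J φ hJA hJc
    obtain ⟨D, r, hD1, hpD, hdeg, hDz⟩ := hl ℓ hℓ0
    have hord := zcv_aeval P hx0 hP ((∑ i, Polynomial.C (fp k (ℓ i)) * F i) - (r ^ p - r))
      (by rw [hdeg]; exact hD1)
    rw [hdeg] at hord
    obtain ⟨hyp, hact⟩ := hcomb ℓ r
    set y : L := (∑ i, algebraMap k L (fp k (ℓ i)) * Y i) - Polynomial.aeval x r with hy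
    have hD' : (1 : ℤ) ≤ D := by exact_mod_cast hD1
    obtain ⟨hy0, hyo⟩ := zcv_as P hp.two_le hord.1 (by rw [hord.2]; nlinarith) hyp
    refine ⟨y, D, hpD, hD1, hy0, ?_, ?_, ?_, ?_⟩
    · intro j hj
      have h1 := hact ⟨j, hJA hj⟩
      have h2 := (hℓ ⟨j, hJA hj⟩).2 hj
      rw [h2, (hfp0 0).2 rfl, map_zero, add_zero] at h1
      exact h1
    · intro a ha haJ
      refine ⟨fp k (ℓ ⬝ᵥ Multiplicative.toAdd (φ ⟨a, ha⟩)), ?_, hact ⟨a, ha⟩⟩
      intro h0
      exact haJ ((hℓ ⟨a, ha⟩).1 ((hfp0 _).1 h0))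
    · rw [hyo, hord.2]
    · intro hzJ
      refine hDz fun h0 => hzJ ?_
      exact (hℓ z').1 (by rw [hz']; exact h0)
  · intro ℓ
    obtain ⟨h1, h2⟩ := hcomb ℓ 0
    refine ⟨(∑ i, algebraMap k L (fp k (ℓ i)) * Y i) - Polynomial.aeval x 0, ?_, h2⟩
    rw [h1]
    congr 1
    rw [zero_pow hp.ne_zero, sub_zero, sub_zero]

end Pool.CND
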